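import Pool.Agent.Helper4.P13.M_Ldg
import Pool.Agent.Helper4.P13.M_Omg

/-!
# Project P13: LDG and OMG without hypotheses
-/

set_option autoImplicit false

namespace Pool.Agent.Helper4.P13

open Pool.Agent.Helper84.P13 Pool.Agent.Helper76.P13D

theorem ldgT : TLdg := hLdg trm low0 nfa exp13

theorem omgT : TOmg := hOmg trm low0 nfa exp13

end Pool.Agent.Helper4.P13
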