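import Pool.Agent.Helper2.P13.M_Ex
import Pool.Agent.Helper2.P13.M_RelUni
import Pool.Agent.Helper84.P13.M_Lifp
import Pool.Agent.Helper84.P13.D1
import Pool.Agent.Helper84.P13.M_CeG
import Pool.Agent.Helper84.P13.M_CeU
import Pool.Agent.Helper84.P13.M_CeO
import Pool.Agent.Helper4.P13.LdgOmg
import Pool.Agent.Helper81.P13.M_HCeV
import Pool.Agent.Helper93.P13.Hk
import Pool.Agent.Helper26.P13.M_Rll
import Pool.Agent.Helper51.P13.M_Unb
import Pool.Agent.Helper69.P13.M_LdU
import Pool.Agent.Helper24.P13.M_LdV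
import Pool.Agent.Helper48.P13.M_Om
import Pool.Agent.Helper55.P13.M_Sta
import Pool.Agent.Helper53.P13.M_Sur
import Pool.Agent.Helper80.P13.M_Led
import Pool.Agent.Helper87.P13.M_Stp
import Pool.Agent.Helper63.P13.M_Itr
import Pool.Agent.Helper99.P13L.M_Trf
import Pool.Agent.Helper22.P13.M_Tri
import Pool.Agent.Helper8.P13.M_Lif
import Pool.Agent.Helper66.P13.M_Cnt
import Pool.Agent.Helper8.P13.M_LBof
import Pool.Agent.Helper38.CV.M_Far
import Pool.Agent.Helper55.CV.M_Fex

/-!
# Project P13: the lower bound for levels `13^n`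
-/

set_option autoImplicit false

namespace Pool.Agent.Helper4.P13

open Pool.Agent.Helper84.P13
open Pool.Agent.Helper76.P13D
open Pool.Agent.Helper2.P13 (S13Rel S13Ex S13Uni S13Lifp)
open Pool.Agent.Helper76.P13 (dd13)
open Pool.Agent.Helper83.P1C (LBP)

theorem relT : S13Rel := Pool.Agent.Helper2.P13.hRel tre

theorem exT : S13Ex := Pool.Agent.Helper2.P13.hEx trm plA edg Pool.Agent.Helper55.CV.hFex Pool.Agent.Helper38.CV.hFar

theorem uniT : S13Uni := Pool.Agent.Helper2.P13.hUni edg tre Pool.Agent.Helper38.CV.hFar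

theorem lifpT : S13Lifp := Pool.Agent.Helper84.P13.hLifp trm (Pool.Agent.Helper2.P13.hSol trm) (Pool.Agent.Helper2.P13.hSor trm)

theorem lifT : TLif := Pool.Agent.Helper8.P13.hLif relT lifpT exT uniT

theorem triT : TTri := by
  have rll := Pool.Agent.Helper26.P13L.hRll
  have ceG := Pool.Agent.Helper84.P13C.hCeG
  have ldU := Pool.Agent.Helper69.P13.hLdU rll ceG Pool.Agent.Helper84.P13C.hCeU
  have ldV := Pool.Agent.Helper24.P13L.hLdV rll ceG Pool.Agent.Helper81.P13.hCeV
  have om := Pool.Agent.Helper48.P13L.hOm rll ceG omgT Pool.Agent.Helper84.P13C.hCeO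
  have sta := Pool.Agent.Helper55.P13L.hSta
  have lwd := Pool.Agent.Helper55.P13L.hLwd
  have sur := Pool.Agent.Helper53.P13L.hSur sta lwd
  have led := Pool.Agent.Helper80.P13L.hLed sta lwd sur
  have stp := Pool.Agent.Helper87.P13L.hStp Pool.Agent.Helper93.P13.hHk ceG
  have itr := Pool.Agent.Helper63.P13L.hItr relT stp ldU ldV om
  exact Pool.Agent.Helper22.P13.hTri led exT itr Pool.Agent.Helper99.P13L.hTrf

theorem unbT : TUnb := Pool.Agent.Helper51.P13L.hUnb

theorem cntT : TCnt := Pool.Agent.Helper66.P13L.hCnt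

/-- The lower bound for levels `13^n`. -/
theorem lb13 : LBP 13 6 dd13 := Pool.Agent.Helper8.P13L.hLBof triT lifT unbT cntT

end Pool.Agent.Helper4.P13
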