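import Pool.Agent.Helper76.P13.StD
import Pool.Agent.Helper84.P13.D1

/-!
# Project P13 (levels `13^n`), module Ldg: leading form of one list
-/

set_option autoImplicit false

namespace Pool.Agent.Helper4.P13

open Pool.Agent.Helper76.P13D
open Pool.Agent.Helper84.P13 Pool.Agent.Helper28.P13

section smul

variable {q q' : ℕ}

private theorem lg_mul_smul (a b : ZMod 13) (X : Module.End (ZMod 13) (Fn13 q q')) :
    (a * b) • X = a • b • X := by
  refine LinearMap.ext fun F => ?_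
  funext x y
  change (a * b) * X F x y = a * (b * X F x y)
  ring

private theorem lg_smul_sub (a : ZMod 13) (X Y : Module.End (ZMod 13) (Fn13 q q')) :
    a • (X - Y) = a • X - a • Y := by
  refine LinearMap.ext fun F => ?_
  funext x y
  change a * (X F x y - Y F x y) = a * X F x y - a * Y F x y
  ring

private theorem lg_smul_zero (a : ZMod 13) : a • (0 : Module.End (ZMod 13) (Fn13 q q')) = 0 := by
  refine LinearMap.ext fun F => ?_
  funext x y
  change a * 0 = 0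
  ring

private theorem lg_zero_smul (X : Module.End (ZMod 13) (Fn13 q q')) : (0 : ZMod 13) • X = 0 := by
  refine LinearMap.ext fun F => ?_
  funext x y
  change 0 * X F x y = 0
  ring

private theorem lg_add_smul (a b : ZMod 13) (X : Module.End (ZMod 13) (Fn13 q q')) :
    (a + b) • X = a • X + b • X := by
  refine LinearMap.ext fun F => ?_
  funext x y
  change (a + b) * X F x y = a * X F x y + b * X F x y
  ring

private theorem lg_sum_smul {ι : Type} (S : Finset ι) (a : ι → ZMod 13)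
    (X : Module.End (ZMod 13) (Fn13 q q')) : (∑ i ∈ S, a i) • X = ∑ i ∈ S, a i • X := by
  classical
  induction S using Finset.induction_on with
  | empty => simp only [Finset.sum_empty]; exact lg_zero_smul X
  | insert i S hi ih => rw [Finset.sum_insert hi, Finset.sum_insert hi, lg_add_smul, ih]

private theorem lg_smul_mul (a : ZMod 13) (X Y : Module.End (ZMod 13) (Fn13 q q')) :
    (a • X) * Y = a • (X * Y) := LinearMap.ext fun _ => rfl

private theorem lg_mul_smul_comm (a : ZMod 13) (X Y : Module.End (ZMod 13) (Fn13 q q')) :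
    X * (a • Y) = a • (X * Y) := by
  refine LinearMap.ext fun F => ?_
  exact X.map_smul a (Y F)

end smul

section ops

variable {r s : ℕ}

private theorem lg_lw_zero (k : ℤ) : Lw (0 : Module.End (ZMod 13) (Fn13 (13 ^ r) (13 ^ s))) k := by
  intro d F _
  rw [LinearMap.zero_apply]
  exact Submodule.zero_mem _

private theorem lg_lw_pow (hLow0 : S13Low0) (O : Module.End (ZMod 13) (Fn13 (13 ^ r) (13 ^ s))) (k : ℕ)
    (h : Lw O k) (n : ℕ) : Lw (O ^ n) ((k * n : ℕ) : ℤ) := by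
  obtain ⟨l1, l2, l3, l4, l5, l6, l7, l8, _⟩ := hLow0 r s
  induction n with
  | zero => simpa using l6
  | succ n ih =>
    rw [pow_succ]
    have := l1 _ _ _ _ ih h
    have e : ((k * n : ℕ) : ℤ) + k = ((k * (n + 1) : ℕ) : ℤ) := by push_cast; ring
    rw [e] at this
    exact this

private theorem lg_lw_sum (hLow0 : S13Low0) {ι : Type} (S : Finset ι)
    (O : ι → Module.End (ZMod 13) (Fn13 (13 ^ r) (13 ^ s))) (k : ℤ) (h : ∀ i ∈ S, Lw (O i) k) :
    Lw (∑ i ∈ S, O i) k := by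
  classical
  obtain ⟨l1, l2, _⟩ := hLow0 r s
  induction S using Finset.induction_on with
  | empty => simpa using lg_lw_zero k
  | insert a S ha ih =>
    rw [Finset.sum_insert ha]
    exact l2 _ _ _ (h a (Finset.mem_insert_self _ _)) (ih fun i hi => h i (Finset.mem_insert_of_mem hi))

/-- the monomials without the torus part -/
private def lgm (t : ℕ × ℕ × ℕ) : Module.End (ZMod 13) (Fn13 (13 ^ r) (13 ^ s)) :=
  (oB - 1) ^ t.1 * (oD - 1) ^ t.2.1 * (oA - 1) ^ t.2.2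

private theorem lg_mon (w : Fin 12) (t : ℕ × ℕ × ℕ) :
    (oW w * (oB - 1) ^ t.1 * (oD - 1) ^ t.2.1 * (oA - 1) ^ t.2.2 :
      Module.End (ZMod 13) (Fn13 (13 ^ r) (13 ^ s))) = oW w * lgm t := by
  unfold lgm
  simp only [mul_assoc]

private theorem lg_lw_lgm (hLow0 : S13Low0) (hNfa : S13Nfa) (t : ℕ × ℕ × ℕ) :
    Lw (lgm t : Module.End (ZMod 13) (Fn13 (13 ^ r) (13 ^ s))) ((t.1 + 12 * t.2.1 + t.2.2 : ℕ) : ℤ) := by
  obtain ⟨l1, l2, l3, l4, l5, l6, l7, l8, _⟩ := hLow0 r s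
  obtain ⟨n1, n2, n3, n4, n5, n6, n7, n8, n9, n10⟩ := hNfa r s
  have h0 := lg_lw_pow hLow0 (oB - 1 : Module.End (ZMod 13) (Fn13 (13 ^ r) (13 ^ s))) 1
    (by exact_mod_cast n10) t.1
  have h1 := lg_lw_pow hLow0 (oD - 1 : Module.End (ZMod 13) (Fn13 (13 ^ r) (13 ^ s))) 12
    (by exact_mod_cast n6) t.2.1
  have h2 := lg_lw_pow hLow0 (oA - 1 : Module.End (ZMod 13) (Fn13 (13 ^ r) (13 ^ s))) 1
    (by exact_mod_cast n9) t.2.2
  have h := l1 _ _ _ _ (l1 _ _ _ _ h0 h1) h2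
  have e : ((1 * t.1 : ℕ) : ℤ) + ((12 * t.2.1 : ℕ) : ℤ) + ((1 * t.2.2 : ℕ) : ℤ)
      = ((t.1 + 12 * t.2.1 + t.2.2 : ℕ) : ℤ) := by push_cast; ring
  rw [e] at h
  exact h

private theorem lg_pow (hLow0 : S13Low0) (O P : Module.End (ZMod 13) (Fn13 (13 ^ r) (13 ^ s)))
    (hO : Lw O 1) (hP : Lw P 1) (h : Lw (O - P) 2) (n : ℕ) : Lw (O ^ n - P ^ n) ((n : ℤ) + 1) := by
  obtain ⟨l1, l2, l3, l4, _⟩ := hLow0 r s
  induction n with
  | zero =>
    rw [pow_zero, pow_zero, sub_self]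
    exact lg_lw_zero _
  | succ n ih =>
    have e : O ^ (n + 1) - P ^ (n + 1) = O ^ n * (O - P) + (O ^ n - P ^ n) * P := by
      rw [pow_succ, pow_succ, mul_sub, sub_mul]
      abel
    rw [e]
    have a1 := l1 _ _ _ _ (lg_lw_pow hLow0 O 1 (by exact_mod_cast hO) n) h
    have a2 := l1 _ _ _ _ ih hP
    have e1 : ((1 * n : ℕ) : ℤ) + 2 = ((n + 1 : ℕ) : ℤ) + 1 := by push_cast; ring
    have e2 : (n : ℤ) + 1 + 1 = ((n + 1 : ℕ) : ℤ) + 1 := by push_cast; ring
    rw [e1] at a1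
    rw [e2] at a2
    exact l2 _ _ _ a1 a2

/-- the monomials of top weight -/
private theorem lg_top (hLow0 : S13Low0) (hNfa : S13Nfa) (i j : ℕ) :
    Lw ((lgm (i, 0, j) : Module.End (ZMod 13) (Fn13 (13 ^ r) (13 ^ s))) -
      dX ^ j * dY ^ i) (((i + j : ℕ) : ℤ) + 1) := by
  have hl := hLow0 r s
  obtain ⟨l1, l2, l3, l4, l5, l6, l7, l8, lc, _⟩ := hl
  obtain ⟨n1, n2, n3, n4, n5, n6, n7, n8, n9, n10⟩ := hNfa r s
  have hB := lg_lw_pow hLow0 (oB - 1 : Module.End (ZMod 13) (Fn13 (13 ^ r) (13 ^ s))) 1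
    (by exact_mod_cast n10) i
  have hX := lg_lw_pow hLow0 (dX : Module.End (ZMod 13) (Fn13 (13 ^ r) (13 ^ s))) 1
    (by exact_mod_cast l7) j
  have pA := lg_pow hLow0 _ _ n9 l7 (l4 _ _ 2 (by norm_num) n7) j
  have pB := lg_pow hLow0 _ _ n10 l8 (l4 _ _ 2 (by norm_num) n8) i
  have a1 := l1 _ _ _ _ hB pA
  have a2 := l1 _ _ _ _ pB hX
  have e1 : ((1 * i : ℕ) : ℤ) + ((j : ℤ) + 1) = ((i + j : ℕ) : ℤ) + 1 := by push_cast; ring
  have e2 : (i : ℤ) + 1 + ((1 * j : ℕ) : ℤ) = ((i + j : ℕ) : ℤ) + 1 := by push_cast; ring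
  rw [e1] at a1
  rw [e2] at a2
  have hcomm : (dX ^ j * dY ^ i : Module.End (ZMod 13) (Fn13 (13 ^ r) (13 ^ s))) = dY ^ i * dX ^ j := by
    have h1 : Commute (dX : Module.End (ZMod 13) (Fn13 (13 ^ r) (13 ^ s))) dY := lc
    exact (h1.pow_pow j i)
  have e : (lgm (i, 0, j) : Module.End (ZMod 13) (Fn13 (13 ^ r) (13 ^ s))) - dX ^ j * dY ^ i =
      (oB - 1) ^ i * ((oA - 1) ^ j - dX ^ j) + ((oB - 1) ^ i - dY ^ i) * dX ^ j := by
    rw [hcomm]
    unfold lgm
    simp only [pow_zero, mul_one, mul_sub, sub_mul]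
    abel
  rw [e]
  exact l2 _ _ _ a1 a2

private theorem lg_oW0 (ht : S13Trm) : (oW 0 : Module.End (ZMod 13) (Fn13 (13 ^ r) (13 ^ s))) = 1 := by
  refine LinearMap.ext fun F => ?_
  exact (ht (ZMod 13) r s F).2.1

private theorem lg_cast {S : ℤ} (h : (13 : ℤ) ∣ S) : (S : ZMod 13) = 0 :=
  (ZMod.intCast_zmod_eq_zero_iff_dvd S 13).2 (by exact_mod_cast h)

end ops

/-- LDG. -/
theorem hLdg (ht : S13Trm) (hl : S13Low0) (hn : S13Nfa) (hx : S13Exp) : TLdg := by
  intro r s L n q hn8 hL hv hq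
  have hl' := hl r s
  obtain ⟨l1, l2, l3, l4, l5, l6, l7, l8, lc, _⟩ := hl'
  have hn' := hn r s
  obtain ⟨n1, n2, n3, n4, n5, n6, n7, n8, n9, n10⟩ := hn'
  have h0 : Lw ((opL L : Module.End (ZMod 13) (Fn13 (13 ^ r) (13 ^ s))) - ∑ w : Fin 12, ∑ t ∈ M15,
      ((cS L w t.1 t.2.1 t.2.2 : ℤ) : ZMod 13) • (oW w * lgm t)) 15 := by
    have h := hx r s L hL
    have e : (∑ w : Fin 12, ∑ t ∈ M15, ((cS L w t.1 t.2.1 t.2.2 : ℤ) : ZMod 13) •
        (oW w * (oB - 1) ^ t.1 * (oD - 1) ^ t.2.1 * (oA - 1) ^ t.2.2) :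
        Module.End (ZMod 13) (Fn13 (13 ^ r) (13 ^ s))) = ∑ w : Fin 12, ∑ t ∈ M15,
        ((cS L w t.1 t.2.1 t.2.2 : ℤ) : ZMod 13) • (oW w * lgm t) :=
      Finset.sum_congr rfl fun w _ => Finset.sum_congr rfl fun t _ => by rw [lg_mon]
    rw [← e]
    convert h using 2
  set A : Fin 12 → Module.End (ZMod 13) (Fn13 (13 ^ r) (13 ^ s)) := fun w => ∑ t ∈ M15,
      ((cS L w t.1 t.2.1 t.2.2 : ℤ) : ZMod 13) • (oW w * lgm t) with hA
  -- one term
  have hterm : ∀ (w : Fin 12), ∀ t ∈ M15, t.1 + 12 * t.2.1 + t.2.2 ≠ n ∨ w ≠ 0 ∨ t.2.1 ≠ 0 →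
      Lw (((cS L w t.1 t.2.1 t.2.2 : ℤ) : ZMod 13) • (oW w * lgm t) :
        Module.End (ZMod 13) (Fn13 (13 ^ r) (13 ^ s))) ((n : ℤ) + 1) := by
    intro w t ht' hne
    rcases lt_trichotomy (t.1 + 12 * t.2.1 + t.2.2) n with hw | hw | hw
    · rw [lg_cast (hv w t ht' hw), lg_zero_smul]
      exact lg_lw_zero _
    · have h1 := hq w t ht' hw
      rw [if_neg, sub_zero] at h1
      · rw [lg_cast h1, lg_zero_smul]
        exact lg_lw_zero _
      · rintro ⟨h2, h3⟩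
        rcases hne with h4 | h4 | h4
        · exact h4 hw
        · exact h4 h2
        · exact h4 h3
    · refine l3 _ _ _ (l4 _ _ _ ?_ (l1 _ _ _ _ (n1 w) (lg_lw_lgm hl hn t)))
      rw [zero_add]
      have : n + 1 ≤ t.1 + 12 * t.2.1 + t.2.2 := by omega
      exact_mod_cast this
  -- the terms with `w ≠ 0`
  have s1 : Lw (∑ w ∈ Finset.univ.erase (0 : Fin 12), A w) ((n : ℤ) + 1) := by
    refine lg_lw_sum hl _ _ _ fun w hw => lg_lw_sum hl _ _ _ fun t ht' => ?_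
    exact hterm w t ht' (Or.inr (Or.inl (Finset.ne_of_mem_erase hw)))
  -- the terms with `w = 0`
  set g : ℕ → ℕ × ℕ × ℕ := fun i => (i, 0, n - i) with hg
  have gin : Set.InjOn g (Finset.range (n + 1) : Set ℕ) := by
    intro a _ b _ hab
    exact congrArg Prod.fst hab
  have hsub : (Finset.range (n + 1)).image g ⊆ M15 := by
    intro t ht'
    rw [Finset.mem_image] at ht'
    obtain ⟨i, hi, rfl⟩ := ht'
    rw [Finset.mem_range] at hi
    unfold M15
    rw [Finset.mem_filter, Finset.mem_product, Finset.mem_product, Finset.mem_range,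
      Finset.mem_range, Finset.mem_range]
    simp only [hg]
    omega
  have s2 : Lw (A 0 - ∑ i ∈ Finset.range (n + 1), ((q i : ℤ) : ZMod 13) •
      (dX ^ (n - i) * dY ^ i : Module.End (ZMod 13) (Fn13 (13 ^ r) (13 ^ s)))) ((n : ℤ) + 1) := by
    have e1 : A 0 = ∑ t ∈ M15 \ (Finset.range (n + 1)).image g,
        ((cS L 0 t.1 t.2.1 t.2.2 : ℤ) : ZMod 13) • (oW 0 * lgm t) +
        ∑ i ∈ Finset.range (n + 1), ((cS L 0 i 0 (n - i) : ℤ) : ZMod 13) •
          (oW 0 * lgm (i, 0, n - i)) := by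
      rw [hA]
      dsimp only
      rw [← Finset.sum_sdiff hsub, Finset.sum_image gin]
    have e2 : A 0 - ∑ i ∈ Finset.range (n + 1), ((q i : ℤ) : ZMod 13) •
        (dX ^ (n - i) * dY ^ i : Module.End (ZMod 13) (Fn13 (13 ^ r) (13 ^ s))) =
        ∑ t ∈ M15 \ (Finset.range (n + 1)).image g,
          ((cS L 0 t.1 t.2.1 t.2.2 : ℤ) : ZMod 13) • (oW 0 * lgm t) +
        ∑ i ∈ Finset.range (n + 1), ((q i : ℤ) : ZMod 13) •
          (lgm (i, 0, n - i) - dX ^ (n - i) * dY ^ i) := by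
      rw [e1, add_sub_assoc, ← Finset.sum_sub_distrib]
      refine congrArg (HAdd.hAdd _) ?_
      refine Finset.sum_congr rfl fun i hi => ?_
      have hi' : i ≤ n := by
        rw [Finset.mem_range] at hi
        omega
      have hmem : g i ∈ M15 := hsub (Finset.mem_image_of_mem g hi)
      have h1 := hq 0 (g i) hmem (by simp only [hg]; omega)
      rw [if_pos ⟨rfl, rfl⟩] at h1
      have h2 : ((cS L 0 i 0 (n - i) : ℤ) : ZMod 13) = ((q i : ℤ) : ZMod 13) := by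
        have h3 := lg_cast h1
        rw [Int.cast_sub, sub_eq_zero] at h3
        exact h3
      rw [h2, lg_oW0 ht, one_mul, lg_smul_sub]
    rw [e2]
    refine l2 _ _ _ ?_ ?_
    · refine lg_lw_sum hl _ _ _ fun t ht' => ?_
      rw [Finset.mem_sdiff] at ht'
      obtain ⟨ht1, ht2⟩ := ht'
      refine hterm 0 t ht1 ?_
      by_contra hcon
      push Not at hcon
      obtain ⟨c1, _, c3⟩ := hcon
      apply ht2
      rw [Finset.mem_image]
      refine ⟨t.1, ?_, ?_⟩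
      · rw [Finset.mem_range]; omega
      · simp only [hg]
        ext
        · rfl
        · exact c3.symm
        · show n - t.1 = t.2.2
          omega
    · refine lg_lw_sum hl _ _ _ fun i hi => l3 _ _ _ ?_
      have h1 := lg_top (r := r) (s := s) hl hn i (n - i)
      have h2 : i + (n - i) = n := by
        rw [Finset.mem_range] at hi
        omega
      rw [h2] at h1
      exact h1
  have s0 : Lw ((opL L : Module.End (ZMod 13) (Fn13 (13 ^ r) (13 ^ s))) - ∑ w : Fin 12, A w)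
      ((n : ℤ) + 1) := by
    refine l4 _ _ _ ?_ h0
    have : (n : ℤ) ≤ 14 := by exact_mod_cast hn8
    linarith
  have hfin := l2 _ _ _ (l2 _ _ _ s0 s1) s2
  have e : ((opL L : Module.End (ZMod 13) (Fn13 (13 ^ r) (13 ^ s))) - ∑ w : Fin 12, A w) +
      (∑ w ∈ Finset.univ.erase (0 : Fin 12), A w) +
      (A 0 - ∑ i ∈ Finset.range (n + 1), ((q i : ℤ) : ZMod 13) •
      (dX ^ (n - i) * dY ^ i : Module.End (ZMod 13) (Fn13 (13 ^ r) (13 ^ s)))) =
      (opL L : Module.End (ZMod 13) (Fn13 (13 ^ r) (13 ^ s))) - ∑ i ∈ Finset.range (n + 1),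
      ((q i : ℤ) : ZMod 13) •
      (dX ^ (n - i) * dY ^ i : Module.End (ZMod 13) (Fn13 (13 ^ r) (13 ^ s))) := by
    rw [← Finset.add_sum_erase _ A (Finset.mem_univ (0 : Fin 12))]
    abel
  rw [e] at hfin
  exact hfin

end Pool.Agent.Helper4.P13
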